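import Pool.Agent.H605R3.PS.Words

set_option autoImplicit false

namespace Pool.Agent.H605R3.PS

open A

/-- The direction of a position: whether its odd part is `3` modulo `4`. -/
def rd (n : ℕ) : Bool :=
  if h : n % 2 = 1 ∨ n = 0 then decide (n % 4 = 3) else rd (n / 2)
termination_by n
decreasing_by omega

theorem rd_odd {n : ℕ} (h : n % 2 = 1) : rd n = decide (n % 4 = 3) := by
  rw [rd, dif_pos (Or.inl h)]

theorem rd_double {n : ℕ} (h : 0 < n) : rd (2 * n) = rd n := by
  rw [rd, dif_neg (by omega)]
  congr 1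
  omega

theorem rd_pow (k : ℕ) {n : ℕ} (h : n % 2 = 1) : rd (n * 2 ^ k) = decide (n % 4 = 3) := by
  induction k with
  | zero => simpa using rd_odd h
  | succ k ih =>
    rw [show n * 2 ^ (k + 1) = 2 * (n * 2 ^ k) by ring, rd_double, ih]
    have : 0 < n := by omega
    positivity

/-- The paperfolding word with the parity of the position recorded. -/
def pf (n : ℕ) : A := if n % 2 = 1 then leaf (rd n) else node (rd n)

theorem pf_leaf {n : ℕ} {d : Bool} (h : pf n = leaf d) : n % 2 = 1 ∧ d = decide (n % 4 = 3) := by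
  unfold pf at h
  by_cases h1 : n % 2 = 1
  · rw [if_pos h1] at h
    simp only [A.leaf.injEq] at h
    exact ⟨h1, by rw [← h, rd_odd h1]⟩
  · rw [if_neg h1] at h
    simp at h

theorem pf_node {n : ℕ} {d : Bool} (h : pf n = node d) : n % 2 = 0 ∧ d = rd n := by
  unfold pf at h
  by_cases h1 : n % 2 = 1
  · rw [if_pos h1] at h
    simp at h
  · rw [if_neg h1] at h
    simp only [A.node.injEq] at h
    exact ⟨by omega, h.symm⟩

theorem pow_uniq {a b h k : ℕ} (ha : a % 2 = 1) (hb : b % 2 = 1) (he : a * 2 ^ h = b * 2 ^ k) :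
    h = k ∧ a = b := by
  have key : ∀ {a b h k : ℕ}, a % 2 = 1 → a * 2 ^ h = b * 2 ^ k → ¬ h < k := by
    intro a b h k ha he hlt
    obtain ⟨c, rfl⟩ := Nat.exists_eq_add_of_lt hlt
    rw [show h + c + 1 = h + (c + 1) by ring, pow_add, pow_succ] at he
    have h1 : 0 < 2 ^ h := by positivity
    have h2 : a = b * (2 ^ c * 2) := by
      apply Nat.eq_of_mul_eq_mul_right h1
      rw [he]; ring
    have h3 : a % 2 = 0 := by
      rw [h2, show b * (2 ^ c * 2) = b * 2 ^ c * 2 by ring]
      exact Nat.mul_mod_left _ _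
    omega
  have h1 := key ha he
  have h2 := key hb he.symm
  have h3 : h = k := by omega
  subst h3
  exact ⟨rfl, Nat.eq_of_mul_eq_mul_right (by positivity) he⟩

/-- An apparent block inside the paperfolding word is a true aligned block. -/
theorem claimN {d : Bool} {w : List A} (h : N d w) : ∀ i, w = seg pf (i + 1) w.length →
    ∃ k c, w.length + 1 = 2 ^ k ∧ 1 ≤ k ∧ i = c * 2 ^ k ∧ d = decide (c % 2 = 1) := by
  induction h with
  | leaf d =>
    intro i hi
    simp only [List.length_singleton, seg, List.cons.injEq, and_true] at hi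
    have h1 := pf_leaf hi.symm
    refine ⟨1, i / 2, by simp, le_rfl, by omega, ?_⟩
    rw [h1.2]
    congr 1
    apply propext
    omega
  | node d u v _ _ ihu ihv =>
    intro i hi
    have h1 := seg_append hi.symm
    obtain ⟨k1, c1, hk1, hk1', hi1, hd1⟩ := ihu i h1.1
    have h2 := seg_cons h1.2.1.symm
    have h3 : i + 1 + u.length = i + 2 ^ k1 := by omega
    rw [h3] at h2
    obtain ⟨k2, c2, hk2, hk2', hi2, hd2⟩ := ihv _ h2.2.1
    have hc1 : c1 % 2 = 0 := by
      have := of_decide_eq_false hd1.symm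
      omega
    have hc2 : c2 % 2 = 1 := of_decide_eq_true hd2.symm
    have h4 : (c1 + 1) * 2 ^ k1 = c2 * 2 ^ k2 := by
      rw [← hi2, hi1]; ring
    obtain ⟨hk, hc⟩ := pow_uniq (by omega) hc2 h4
    subst hk
    refine ⟨k1 + 1, c1 / 2, ?_, by omega, ?_, ?_⟩
    · rw [pow_succ]
      simp only [List.length_append, List.length_cons]
      omega
    · have h5 : c1 = 2 * (c1 / 2) := by omega
      conv_lhs => rw [hi1, h5]
      rw [pow_succ]
      ring
    · have h6 := pf_node h2.1
      rw [h6.2, show i + 2 ^ k1 = (c1 + 1) * 2 ^ k1 by rw [hi1]; ring, rd_pow k1 (by omega)]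
      congr 1
      apply propext
      omega

/-- An apparent neighbourhood inside the paperfolding word is a true one. -/
theorem claimZ {w : List A} (h : Z w) : ∀ p, w = seg pf (p + 1) w.length →
    ∃ k c, w.length + 1 = 2 ^ (k + 1) ∧ 1 ≤ k ∧ p + 2 ^ k = c * 2 ^ (k + 1) := by
  induction h with
  | base e =>
    intro p hp
    simp only [List.length_cons, List.length_nil, seg, List.cons.injEq] at hp
    have h1 := pf_leaf hp.1.symm
    have h2 := of_decide_eq_true h1.2.symm
    refine ⟨1, (p + 2) / 4, by simp, le_rfl, ?_⟩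
    norm_num
    omega
  | step u z v hu _ hv ihz =>
    intro p hp
    have h1 := seg_append hp.symm
    obtain ⟨k1, c1, hk1, hk1', hi1, hd1⟩ := claimN hu p h1.1
    have h2 := seg_cons h1.2.1.symm
    have h3 : p + 1 + u.length = p + 2 ^ k1 := by omega
    rw [h3] at h2
    have h4 := seg_append h2.2.1.symm
    obtain ⟨k, c, hk, hk', hc⟩ := ihz _ h4.1
    have h5 := seg_cons h4.2.1.symm
    have h6 : p + 2 ^ k1 + 1 + z.length = p + 2 ^ k1 + 2 ^ (k + 1) := by omega
    rw [h6] at h5
    obtain ⟨k2, c2, hk2, hk2', hi2, hd2⟩ := claimN hv _ h5.2.1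
    have hc1 : c1 % 2 = 0 := by
      have := of_decide_eq_false hd1.symm
      omega
    have hc2 : c2 % 2 = 1 := of_decide_eq_true hd2.symm
    have hcpos : 0 < c := by
      rcases Nat.eq_zero_or_pos c with h0 | h0
      · exfalso
        rw [h0, zero_mul] at hc
        have : 0 < 2 ^ k := by positivity
        omega
      · exact h0
    have hpk : (2 : ℕ) ^ (k + 1) = 2 * 2 ^ k := by ring
    -- the left token
    have e1 : p + 2 ^ k1 = (2 * c - 1) * 2 ^ k := by
      have : (2 * c - 1) * 2 ^ k + 2 ^ k = c * 2 ^ (k + 1) := by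
        have : 2 * c - 1 + 1 = 2 * c := by omega
        calc (2 * c - 1) * 2 ^ k + 2 ^ k = (2 * c - 1 + 1) * 2 ^ k := by ring
          _ = c * 2 ^ (k + 1) := by rw [this, hpk]; ring
      omega
    have e2 : p + 2 ^ k1 = (c1 + 1) * 2 ^ k1 := by rw [hi1]; ring
    obtain ⟨hkk, hcc⟩ := pow_uniq (a := c1 + 1) (b := 2 * c - 1) (by omega) (by omega)
      (e2.symm.trans e1)
    subst hkk
    -- the right token
    have e3 : p + 2 ^ k1 + 2 ^ (k1 + 1) = (2 * c + 1) * 2 ^ k1 := by
      have : (2 * c + 1) * 2 ^ k1 = c * 2 ^ (k1 + 1) + 2 ^ k1 := by rw [hpk]; ring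
      rw [this]
      omega
    obtain ⟨hkk2, -⟩ := pow_uniq (a := 2 * c + 1) (b := c2) (by omega) hc2
      (e3.symm.trans hi2)
    subst hkk2
    have h7 := (pf_node h2.1).2
    rw [e1, rd_pow k1 (by omega)] at h7
    have h8 := of_decide_eq_true h7.symm
    refine ⟨k1 + 1, c / 2, ?_, by omega, ?_⟩
    · simp only [List.length_append, List.length_cons]
      rw [pow_succ]
      omega
    · have h9 : c = 2 * (c / 2) := by omega
      have h10 : p + 2 ^ (k1 + 1) = c * 2 ^ (k1 + 1) := by omega
      rw [h10, pow_succ 2 (k1 + 1)]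
      conv_lhs => rw [h9]
      ring

theorem not_V {w : List A} (h : V w) : ∀ p, w ≠ seg pf (p + 1) w.length := by
  intro p hp
  cases h with
  | ll a b =>
    simp only [List.length_cons, List.length_nil, seg, List.cons.injEq] at hp
    have h1 := (pf_leaf hp.1.symm).1
    have h2 := (pf_leaf hp.2.1.symm).1
    omega
  | nn a b =>
    simp only [List.length_cons, List.length_nil, seg, List.cons.injEq] at hp
    have h1 := (pf_node hp.1.symm).1
    have h2 := (pf_node hp.2.1.symm).1
    omega
  | lnl a b =>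
    simp only [List.length_cons, List.length_nil, seg, List.cons.injEq] at hp
    have h1 := pf_leaf hp.1.symm
    have h2 := pf_leaf hp.2.2.1.symm
    have h3 := h1.2.symm.trans h2.2
    rw [decide_eq_decide] at h3
    omega
  | z a z hz =>
    have h2 := seg_cons hp.symm
    have h4 := seg_append h2.2.1.symm
    obtain ⟨k, c, hk, hk', hc⟩ := claimZ hz _ h4.1
    have h5 := seg_cons h4.2.1.symm
    have hcpos : 0 < c := by
      rcases Nat.eq_zero_or_pos c with h0 | h0
      · exfalso
        rw [h0, zero_mul] at hc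
        have : 0 < 2 ^ k := by positivity
        omega
      · exact h0
    have hpk : (2 : ℕ) ^ (k + 1) = 2 * 2 ^ k := by ring
    have e1 : p + 1 = (2 * c - 1) * 2 ^ k := by
      have : (2 * c - 1) * 2 ^ k + 2 ^ k = c * 2 ^ (k + 1) := by
        have : 2 * c - 1 + 1 = 2 * c := by omega
        calc (2 * c - 1) * 2 ^ k + 2 ^ k = (2 * c - 1 + 1) * 2 ^ k := by ring
          _ = c * 2 ^ (k + 1) := by rw [this, hpk]; ring
      omega
    have e3 : p + 1 + 1 + z.length = (2 * c + 1) * 2 ^ k := by
      have : (2 * c + 1) * 2 ^ k = c * 2 ^ (k + 1) + 2 ^ k := by rw [hpk]; ring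
      rw [this]
      omega
    have h7 := (pf_node h2.1).2
    have h8 := (pf_node h5.1).2
    rw [e1, rd_pow k (by omega)] at h7
    rw [e3, rd_pow k (by omega)] at h8
    have h9 := h7.symm.trans h8
    rw [decide_eq_decide] at h9
    omega

theorem blk_eq (k : ℕ) : ∀ i, seg pf (i * 2 ^ (k + 1) + 1) (2 ^ (k + 1) - 1) =
    blk k (decide (i % 2 = 1)) := by
  induction k with
  | zero =>
    intro i
    simp only [zero_add, pow_one, blk]
    rw [show 2 - 1 = 1 by rfl]
    simp only [seg]
    unfold pf
    rw [if_pos (by omega), rd_odd (by omega)]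
    congr 2
    rw [decide_eq_decide]
    omega
  | succ k ih =>
    intro i
    set m := 2 ^ (k + 1) with hm
    have hm1 : 2 ≤ m := by
      rw [hm, pow_succ]
      have := Nat.one_le_two_pow (n := k)
      omega
    have hm2 : 2 ^ (k + 1 + 1) = 2 * m := by rw [hm]; ring
    rw [hm2]
    have e1 : 2 * m - 1 = (m - 1) + (1 + (m - 1)) := by omega
    rw [e1, seg_add, seg_add]
    have h1 := ih (2 * i)
    have h2 := ih (2 * i + 1)
    have p1 : i * (2 * m) + 1 = 2 * i * m + 1 := by ring
    have p2 : 2 * i * m + 1 + (m - 1) = (2 * i + 1) * m := by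
      have : (2 * i + 1) * m = 2 * i * m + m := by ring
      omega
    rw [p1, p2, h1, h2]
    have q1 : (2 * i) % 2 = 0 := by omega
    have q2 : (2 * i + 1) % 2 = 1 := by omega
    have h3 : pf ((2 * i + 1) * m) = node (decide (i % 2 = 1)) := by
      unfold pf
      rw [if_neg, hm, rd_pow (k + 1) q2]
      · congr 1
        rw [decide_eq_decide]
        omega
      · rw [hm, pow_succ, ← mul_assoc]
        simp
    simp [seg, h3, blk, q1, q2]

theorem blk_good (k : ℕ) : ¬ Bad (blk k false) := by
  rintro ⟨v, hv, hi⟩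
  have h1 := blk_eq k 0
  simp only [zero_mul, zero_add] at h1
  have h2 : decide (0 % 2 = 1) = false := by decide
  rw [h2] at h1
  rw [← h1] at hi
  obtain ⟨b, hb⟩ := infix_seg hi
  rw [add_comm 1 b] at hb
  exact not_V hv b hb

theorem blk_injective : Function.Injective (fun k => blk k false) := by
  intro k l h
  have h1 := blk_length k false
  have h2 := blk_length l false
  have h3 : blk k false = blk l false := h
  rw [h3] at h1
  have h4 : 2 ^ (k + 1) = 2 ^ (l + 1) := by omega
  have h5 := Nat.pow_right_injective le_rfl h4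
  omega

end Pool.Agent.H605R3.PS
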