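import Pool.Agent.H605R3.PS.Words
import Pool.Agent.Helper336.CF

set_option autoImplicit false

namespace Pool.Agent.H605R3.PS

open A Pool.Agent.Helper336.CF

/-- Terminal symbols of the grammar. -/
abbrev tm (a : A) : Symbol (Option A) (Option Bool) := Symbol.terminal (some a)

/-- Nonterminals: `some d` for blocks, `none` for neighbourhoods. -/
abbrev nt (x : Option Bool) : Symbol (Option A) (Option Bool) := Symbol.nonterminal x

open Classical in
/-- The rules for blocks and neighbourhoods. -/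
noncomputable def rls : Finset (ContextFreeRule (Option A) (Option Bool)) :=
  (Finset.univ.image fun d : Bool => ⟨some d, [tm (leaf d)]⟩) ∪
  (Finset.univ.image fun d : Bool => ⟨some d, [nt (some false), tm (node d), nt (some true)]⟩) ∪
  (Finset.univ.image fun e : Bool => ⟨none, [tm (leaf true), tm (node e), tm (leaf false)]⟩) ∪
  {⟨none, [nt (some false), tm (node true), nt none, tm (node false), nt (some true)]⟩}

/-- The grammar. -/
noncomputable def grm : ContextFreeGrammar (Option A) where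
  NT := Option Bool
  initial := none
  rules := rls

theorem mem_rls (r : ContextFreeRule (Option A) (Option Bool)) : r ∈ rls ↔
    (∃ d, r = ⟨some d, [tm (leaf d)]⟩) ∨
    (∃ d, r = ⟨some d, [nt (some false), tm (node d), nt (some true)]⟩) ∨
    (∃ e, r = ⟨none, [tm (leaf true), tm (node e), tm (leaf false)]⟩) ∨
    r = ⟨none, [nt (some false), tm (node true), nt none, tm (node false), nt (some true)]⟩ := by
  classical
  unfold rls
  simp only [Finset.mem_union, Finset.mem_image, Finset.mem_univ, true_and, Finset.mem_singleton,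
    eq_comm (b := r), or_assoc]

/-- Words over `A` as words over `Option A`. -/
def em (P : List A → Prop) : Set (List (Option A)) := {w | ∃ u, P u ∧ w = u.map some}

/-- The intended semantics. -/
def sm : Option Bool → Set (List (Option A))
  | some d => em (N d)
  | none => em Z

theorem sm_sound (r : ContextFreeRule (Option A) (Option Bool)) (hr : r ∈ rls)
    (w : List (Option A)) (hw : Comp sm r.output w) : w ∈ sm r.input := by
  rw [mem_rls] at hr
  rcases hr with ⟨d, rfl⟩ | ⟨d, rfl⟩ | ⟨e, rfl⟩ | rfl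
  · obtain ⟨w', rfl, rfl⟩ := hw
    exact ⟨[leaf d], N.leaf d, rfl⟩
  · obtain ⟨w1, w2, rfl, ⟨u, hu, rfl⟩, w3, rfl, w4, w5, rfl, ⟨v, hv, rfl⟩, rfl⟩ := hw
    exact ⟨u ++ node d :: v, N.node d u v hu hv, by simp⟩
  · obtain ⟨w', rfl, w2, rfl, w3, rfl, rfl⟩ := hw
    exact ⟨_, Z.base e, rfl⟩
  · obtain ⟨w1, w2, rfl, ⟨u, hu, rfl⟩, w3, rfl, w4, w5, rfl, ⟨z, hz, rfl⟩, w6, rfl, w7, w8, rfl,
      ⟨v, hv, rfl⟩, rfl⟩ := hw
    exact ⟨_, Z.step u z v hu hz hv, by simp⟩

theorem gen_N {d : Bool} {w : List A} (h : N d w) : w.map some ∈ Gen grm (some d) := by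
  induction h with
  | leaf d =>
    refine gen_of_rule grm ⟨some d, [tm (leaf d)]⟩ ((mem_rls _).2 (Or.inl ⟨d, rfl⟩)) _ ?_
    exact ⟨[], rfl, rfl⟩
  | node d u v _ _ ihu ihv =>
    refine gen_of_rule grm ⟨some d, [nt (some false), tm (node d), nt (some true)]⟩
      ((mem_rls _).2 (Or.inr (Or.inl ⟨d, rfl⟩))) _ ?_
    exact ⟨u.map some, _, by simp; rfl, ihu, _, rfl, v.map some, [], by simp, ihv, rfl⟩

theorem gen_Z {w : List A} (h : Z w) : w.map some ∈ Gen grm none := by
  induction h with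
  | base e =>
    refine gen_of_rule grm ⟨none, [tm (leaf true), tm (node e), tm (leaf false)]⟩
      ((mem_rls _).2 (Or.inr (Or.inr (Or.inl ⟨e, rfl⟩)))) _ ?_
    exact ⟨_, rfl, _, rfl, _, rfl, rfl⟩
  | step u z v hu _ hv ih =>
    refine gen_of_rule grm ⟨none, [nt (some false), tm (node true), nt none, tm (node false),
      nt (some true)]⟩ ((mem_rls _).2 (Or.inr (Or.inr (Or.inr rfl)))) _ ?_
    exact ⟨u.map some, _, by simp; rfl, gen_N hu, _, rfl, z.map some, _, rfl, ih, _, rfl,
      v.map some, [], by simp, gen_N hv, rfl⟩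

theorem cf_Z : IsCF (em Z) := by
  refine ⟨grm, ?_⟩
  ext w
  refine language_eq grm sm (fun r hr w hw => sm_sound r hr w hw) ?_ w
  rintro w ⟨u, hu, rfl⟩
  exact gen_Z hu

open Classical in
theorem cf_all : IsCF (em fun _ => True) := by
  let g0 : ContextFreeGrammar (Option A) := ⟨PUnit, PUnit.unit, ∅⟩
  refine ext_cf g0 g0 ({[]} ∪ Finset.univ.image
    (fun a : A => [Symbol.terminal (some a), Symbol.nonterminal none])) _ ?_ ?_
  · intro o ho w hw
    simp only [Finset.mem_union, Finset.mem_singleton, Finset.mem_image, Finset.mem_univ,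
      true_and] at ho
    rcases ho with rfl | ⟨a, rfl⟩
    · simp only [Comp] at hw
      subst hw
      exact ⟨[], trivial, rfl⟩
    · obtain ⟨w', rfl, w1, w2, rfl, ⟨u, -, rfl⟩, rfl⟩ := hw
      exact ⟨a :: u, trivial, by simp⟩
  · rintro S _ _ hS w ⟨u, -, rfl⟩
    induction u with
    | nil => exact hS [] (by simp) _ rfl
    | cons a u ih =>
      refine hS [Symbol.terminal (some a), Symbol.nonterminal none] (by simp) _ ?_
      exact ⟨_, rfl, u.map some, [], by simp, ih, rfl⟩

theorem em_cat (P Q : List A → Prop) :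
    cat (em P) (em Q) = em (fun w => ∃ u v, P u ∧ Q v ∧ w = u ++ v) := by
  ext w
  constructor
  · rintro ⟨_, ⟨u, hu, rfl⟩, _, ⟨v, hv, rfl⟩, rfl⟩
    exact ⟨u ++ v, ⟨u, v, hu, hv, rfl⟩, by simp⟩
  · rintro ⟨_, ⟨u, v, hu, hv, rfl⟩, rfl⟩
    exact ⟨_, ⟨u, hu, rfl⟩, _, ⟨v, hv, rfl⟩, by simp⟩

theorem em_single (a : List A) : em (fun w => w = a) = {a.map some} := by
  ext w
  constructor
  · rintro ⟨u, rfl, rfl⟩; rfl
  · rintro rfl; exact ⟨a, rfl, rfl⟩

theorem cf_em_single (a : List A) : IsCF (em (fun w => w = a)) := by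
  rw [em_single]
  exact cf_singleton _

theorem em_or (P Q : List A → Prop) : em P ∪ em Q = em (fun w => P w ∨ Q w) := by
  ext w
  constructor
  · rintro (⟨u, hu, rfl⟩ | ⟨u, hu, rfl⟩)
    · exact ⟨u, Or.inl hu, rfl⟩
    · exact ⟨u, Or.inr hu, rfl⟩
  · rintro ⟨u, hu | hu, rfl⟩
    · exact Or.inl ⟨u, hu, rfl⟩
    · exact Or.inr ⟨u, hu, rfl⟩

open Classical in
theorem cf_fin (F : Finset (List A)) : IsCF (em (fun w => w ∈ F)) := by
  have h := cf_finite (T := Option A) (F.image (List.map some))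
  have e : em (fun w => w ∈ F) = {w | w ∈ F.image (List.map some)} := by
    ext w
    simp only [Finset.mem_image, Set.mem_ofPred_eq]
    constructor
    · rintro ⟨u, hu, rfl⟩; exact ⟨u, hu, rfl⟩
    · rintro ⟨u, hu, rfl⟩; exact ⟨u, hu, rfl⟩
  rw [e]
  exact h

theorem V_iff (w : List A) : V w ↔
    (w ∈ (Finset.univ.image (fun p : Bool × Bool => [leaf p.1, leaf p.2]) ∪
      Finset.univ.image (fun p : Bool × Bool => [node p.1, node p.2]) ∪
      Finset.univ.image (fun p : Bool × Bool => [leaf p.1, node p.2, leaf p.1]) :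
        Finset (List A))) ∨
    ((∃ u v, u = [node false] ∧ (∃ z t, Z z ∧ t = [node false] ∧ v = z ++ t) ∧ w = u ++ v) ∨
    (∃ u v, u = [node true] ∧ (∃ z t, Z z ∧ t = [node true] ∧ v = z ++ t) ∧ w = u ++ v)) := by
  simp only [Finset.mem_union, Finset.mem_image, Finset.mem_univ, true_and, Prod.exists]
  constructor
  · intro h
    cases h with
    | ll a b => exact Or.inl (Or.inl (Or.inl ⟨a, b, rfl⟩))
    | nn a b => exact Or.inl (Or.inl (Or.inr ⟨a, b, rfl⟩))
    | lnl a b => exact Or.inl (Or.inr ⟨a, b, rfl⟩)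
    | z a z hz =>
      cases a with
      | false => exact Or.inr (Or.inl ⟨_, _, rfl, ⟨z, _, hz, rfl, rfl⟩, rfl⟩)
      | true => exact Or.inr (Or.inr ⟨_, _, rfl, ⟨z, _, hz, rfl, rfl⟩, rfl⟩)
  · rintro (((⟨a, b, rfl⟩ | ⟨a, b, rfl⟩) | ⟨a, b, rfl⟩) |
      (⟨_, _, rfl, ⟨z, _, hz, rfl, rfl⟩, rfl⟩ | ⟨_, _, rfl, ⟨z, _, hz, rfl, rfl⟩, rfl⟩))
    · exact V.ll a b
    · exact V.nn a b
    · exact V.lnl a b
    · exact V.z false z hz
    · exact V.z true z hz

theorem cf_V : IsCF (em V) := by
  have e : em V = em (fun w => w ∈ (Finset.univ.image (fun p : Bool × Bool => [leaf p.1, leaf p.2]) ∪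
      Finset.univ.image (fun p : Bool × Bool => [node p.1, node p.2]) ∪
      Finset.univ.image (fun p : Bool × Bool => [leaf p.1, node p.2, leaf p.1]) :
        Finset (List A))) ∪
      (cat (em (fun w => w = [node false])) (cat (em Z) (em (fun w => w = [node false]))) ∪
      cat (em (fun w => w = [node true])) (cat (em Z) (em (fun w => w = [node true])))) := by
    rw [em_cat, em_cat, em_cat, em_cat, em_or, em_or]
    congr 1
    funext w
    exact propext (V_iff w)
  rw [e]
  exact cf_union (cf_fin _) (cf_union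
    (cf_cat (cf_em_single _) (cf_cat cf_Z (cf_em_single _)))
    (cf_cat (cf_em_single _) (cf_cat cf_Z (cf_em_single _))))

theorem cf_Bad : IsCF (em Bad) := by
  have e : em Bad = cat (em fun _ => True) (cat (em V) (em fun _ => True)) := by
    rw [em_cat, em_cat]
    congr 1
    funext w
    apply propext
    constructor
    · rintro ⟨v, hv, p, q, rfl⟩
      exact ⟨p, v ++ q, trivial, ⟨v, q, hv, trivial, rfl⟩, by simp⟩
    · rintro ⟨p, _, -, ⟨v, q, hv, -, rfl⟩, rfl⟩
      exact ⟨v, hv, p, q, by simp⟩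
  rw [e]
  exact cf_cat cf_all (cf_cat cf_V cf_all)

theorem cf_Bad_rev : IsCF (T := Option A) {w | ∃ u, Bad u ∧ w = u.reverse.map some} := by
  have h := Language.IsContextFree.reverse (T := Option A) (L := (em Bad : Language (Option A)))
    cf_Bad
  have e : ({w | ∃ u, Bad u ∧ w = u.reverse.map some} : Set (List (Option A))) =
      (Language.reverse (em Bad : Language (Option A)) : Set (List (Option A))) := by
    ext w
    constructor
    · rintro ⟨u, hu, rfl⟩
      show (u.reverse.map some).reverse ∈ em Bad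
      exact ⟨u, hu, by simp⟩
    · intro hw
      have hw' : w.reverse ∈ em Bad := hw
      obtain ⟨u, hu, he⟩ := hw'
      refine ⟨u, hu, ?_⟩
      have := congrArg List.reverse he
      simpa using this
  show Language.IsContextFree _
  rw [e]
  exact h

open Classical in
theorem cf_diag : IsCF (T := Option A)
    {w | ∃ u : List A, u ≠ [] ∧ w = u.map some ++ none :: u.reverse.map some} := by
  let g0 : ContextFreeGrammar (Option A) := ⟨PUnit, PUnit.unit, ∅⟩
  refine ext_cf g0 g0 (Finset.univ.image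
      (fun a : A => [Symbol.terminal (some a), Symbol.terminal none, Symbol.terminal (some a)]) ∪
    Finset.univ.image
      (fun a : A => [Symbol.terminal (some a), Symbol.nonterminal none,
        Symbol.terminal (some a)])) _ ?_ ?_
  · intro o ho w hw
    simp only [Finset.mem_union, Finset.mem_image, Finset.mem_univ, true_and] at ho
    rcases ho with ⟨a, rfl⟩ | ⟨a, rfl⟩
    · obtain ⟨_, rfl, _, rfl, _, rfl, rfl⟩ := hw
      exact ⟨[a], by simp, by simp⟩
    · obtain ⟨_, rfl, w1, w2, rfl, ⟨u, hu, rfl⟩, _, rfl, rfl⟩ := hw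
      exact ⟨a :: u, by simp, by simp⟩
  · rintro S _ _ hS w ⟨u, hu, rfl⟩
    induction u with
    | nil => exact absurd rfl hu
    | cons a u ih =>
      rcases eq_or_ne u [] with rfl | hu'
      · refine hS [Symbol.terminal (some a), Symbol.terminal none, Symbol.terminal (some a)]
          (by simp) _ ?_
        exact ⟨_, rfl, _, rfl, _, rfl, rfl⟩
      · refine hS [Symbol.terminal (some a), Symbol.nonterminal none, Symbol.terminal (some a)]
          (by simp) _ ?_
        refine ⟨u.map some ++ none :: u.reverse.map some ++ [some a], by simp, _, [some a], rfl,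
          ih hu', [], rfl, rfl⟩

/-- The word problem language. -/
def WP : Set (List (Option A)) :=
  {w | ∃ u v : List A, u ≠ [] ∧ v ≠ [] ∧ (u = v ∨ (Bad u ∧ Bad v)) ∧
    w = u.map some ++ [none] ++ v.reverse.map some}

theorem cf_WP : IsCF WP := by
  have e : WP = {w | ∃ u : List A, u ≠ [] ∧ w = u.map some ++ none :: u.reverse.map some} ∪
      cat (em Bad) (cat {[none]} {w | ∃ u, Bad u ∧ w = u.reverse.map some}) := by
    ext w
    constructor
    · rintro ⟨u, v, hu, hv, rfl | ⟨h1, h2⟩, rfl⟩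
      · exact Or.inl ⟨u, hu, by simp⟩
      · exact Or.inr ⟨_, ⟨u, h1, rfl⟩, _, ⟨_, rfl, _, ⟨v, h2, rfl⟩, rfl⟩, by simp⟩
    · rintro (⟨u, hu, rfl⟩ | ⟨_, ⟨u, h1, rfl⟩, _, ⟨_, rfl, _, ⟨v, h2, rfl⟩, rfl⟩, rfl⟩)
      · exact ⟨u, u, hu, hu, Or.inl rfl, by simp⟩
      · exact ⟨u, v, h1.ne_nil, h2.ne_nil, Or.inr ⟨h1, h2⟩, by simp⟩
  rw [e]
  exact cf_union cf_diag (cf_cat cf_Bad (cf_cat (cf_singleton _) cf_Bad_rev))

end Pool.Agent.H605R3.PS
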