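import Pool.Agent.H605R3.PS.Words

set_option autoImplicit false

namespace Pool.Agent.H605R3.PS

open A

/-- The hierarchical structure at level `k`. -/
def Hier (y : ℕ → A) (k : ℕ) : Prop :=
  ∃ a : ℕ, ∀ i : ℕ,
    (∃ e, y (a + i * 2 ^ (k + 1)) = node e) ∧
    seg y (a + i * 2 ^ (k + 1) + 1) (2 ^ (k + 1) - 1) = blk k (decide (i % 2 = 1))

theorem isLeaf_or (x : A) : (∃ d, x = leaf d) ∨ ∃ d, x = node d := by
  cases x with
  | leaf d => exact Or.inl ⟨d, rfl⟩
  | node d => exact Or.inr ⟨d, rfl⟩

theorem after_leaf {y : ℕ → A} (hy : ∀ a n, ¬ V (seg y a n)) {n : ℕ} {d : Bool}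
    (h : y n = leaf d) : ∃ e, y (n + 1) = node e := by
  rcases isLeaf_or (y (n + 1)) with ⟨e, he⟩ | h'
  · exfalso
    apply hy n 2
    simp only [seg, h, he]
    exact V.ll d e
  · exact h'

theorem after_node {y : ℕ → A} (hy : ∀ a n, ¬ V (seg y a n)) {n : ℕ} {d : Bool}
    (h : y n = node d) : ∃ e, y (n + 1) = leaf e := by
  rcases isLeaf_or (y (n + 1)) with h' | ⟨e, he⟩
  · exact h'
  · exfalso
    apply hy n 2
    simp only [seg, h, he]
    exact V.nn d e

theorem hier_zero {y : ℕ → A} (hy : ∀ a n, ¬ V (seg y a n)) : Hier y 0 := by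
  -- a node position
  obtain ⟨b, e0, hb⟩ : ∃ b e, y b = node e := by
    rcases isLeaf_or (y 0) with ⟨d, hd⟩ | ⟨d, hd⟩
    · obtain ⟨e, he⟩ := after_leaf hy hd
      exact ⟨1, e, he⟩
    · exact ⟨0, d, hd⟩
  have hnode : ∀ i, ∃ e, y (b + 2 * i) = node e := by
    intro i
    induction i with
    | zero => exact ⟨e0, hb⟩
    | succ i ih =>
      obtain ⟨e, he⟩ := ih
      obtain ⟨f, hf⟩ := after_node hy he
      obtain ⟨g, hg⟩ := after_leaf hy hf
      exact ⟨g, by rw [← hg]; congr 1⟩
  have hleaf : ∀ i, ∃ e, y (b + 2 * i + 1) = leaf e := by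
    intro i
    obtain ⟨e, he⟩ := hnode i
    exact after_node hy he
  have halt : ∀ i e, y (b + 2 * i + 1) = leaf e → y (b + 2 * (i + 1) + 1) = leaf (!e) := by
    intro i e he
    obtain ⟨f, hf⟩ := hleaf (i + 1)
    obtain ⟨g, hg⟩ := hnode (i + 1)
    by_cases hfe : f = e
    · exfalso
      apply hy (b + 2 * i + 1) 3
      simp only [seg]
      rw [show b + 2 * i + 1 + 1 = b + 2 * (i + 1) by ring,
        he, hg, hf, hfe]
      exact V.lnl e g
    · rw [hf]
      cases f <;> cases e <;> simp_all
  -- choose the start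
  obtain ⟨c, hc⟩ : ∃ c, y (b + 2 * c + 1) = leaf false := by
    obtain ⟨e, he⟩ := hleaf 0
    cases e with
    | false => exact ⟨0, he⟩
    | true => exact ⟨1, by simpa using halt 0 true he⟩
  have hval : ∀ i, y (b + 2 * (c + i) + 1) = leaf (decide (i % 2 = 1)) := by
    intro i
    induction i with
    | zero => simpa using hc
    | succ i ih =>
      have := halt (c + i) _ ih
      rw [show c + (i + 1) = c + i + 1 by ring, this]
      congr 1
      rcases Nat.mod_two_eq_zero_or_one i with h | h
      · have : (i + 1) % 2 = 1 := by omega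
        simp [h, this]
      · have : (i + 1) % 2 = 0 := by omega
        simp [h, this]
  refine ⟨b + 2 * c, fun i => ?_⟩
  constructor
  · obtain ⟨e, he⟩ := hnode (c + i)
    refine ⟨e, ?_⟩
    rw [← he]
    congr 1
    ring
  · have h1 := hval i
    simp only [zero_add, pow_one, blk]
    rw [show 2 - 1 = 1 by rfl]
    simp only [seg]
    rw [← h1]
    congr 2
    ring

theorem hier_succ {y : ℕ → A} (hy : ∀ a n, ¬ V (seg y a n)) {k : ℕ} (h : Hier y k) :
    Hier y (k + 1) := by
  obtain ⟨a, ha⟩ := h
  set m := 2 ^ (k + 1) with hm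
  have hm1 : 2 ≤ m := by
    rw [hm, pow_succ]
    have := Nat.one_le_two_pow (n := k)
    omega
  have hm2 : 2 ^ (k + 1 + 1) = 2 * m := by rw [hm]; ring
  -- separators
  choose sp hsp using fun i => (ha i).1
  have hbl := fun i => (ha i).2
  -- level k + 1 blocks
  have hblk : ∀ j, seg y (a + j * (2 * m) + 1) (2 * m - 1) = blk (k + 1) (sp (2 * j + 1)) := by
    intro j
    have e1 : 2 * m - 1 = (m - 1) + (1 + (m - 1)) := by omega
    rw [e1, seg_add, seg_add]
    have h1 := hbl (2 * j)
    have h2 := hbl (2 * j + 1)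
    have h3 := hsp (2 * j + 1)
    have p1 : a + j * (2 * m) + 1 = a + 2 * j * m + 1 := by ring
    have p2 : a + 2 * j * m + 1 + (m - 1) = a + (2 * j + 1) * m := by
      have : (2 * j + 1) * m = 2 * j * m + m := by ring
      omega
    rw [p1, p2, h1, h2]
    simp only [seg, h3, blk]
    have q1 : (2 * j) % 2 = 0 := by omega
    have q2 : (2 * j + 1) % 2 = 1 := by omega
    simp [q1, q2]
  -- alternation
  have halt : ∀ j, sp (2 * (j + 1) + 1) = !(sp (2 * j + 1)) := by
    intro j
    by_contra hne
    have heq : sp (2 * (j + 1) + 1) = sp (2 * j + 1) := by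
      cases h1 : sp (2 * (j + 1) + 1) <;> cases h2 : sp (2 * j + 1) <;> simp_all
    -- the word from separator 2j+1 to separator 2j+3
    apply hy (a + (2 * j + 1) * m) (1 + ((m - 1) + (1 + ((m - 1) + 1))))
    rw [seg_add, seg_add, seg_add, seg_add]
    have p1 : a + (2 * j + 1) * m + 1 + (m - 1) = a + (2 * j + 2) * m := by
      have : (2 * j + 2) * m = (2 * j + 1) * m + m := by ring
      omega
    have p2 : a + (2 * j + 2) * m + 1 + (m - 1) = a + (2 * (j + 1) + 1) * m := by
      have : (2 * (j + 1) + 1) * m = (2 * j + 2) * m + m := by ring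
      omega
    rw [p1, p2]
    have h1 := hbl (2 * j + 1)
    have h2 := hbl (2 * j + 2)
    have s1 := hsp (2 * j + 1)
    have s2 := hsp (2 * j + 2)
    have s3 := hsp (2 * (j + 1) + 1)
    rw [h1, h2]
    simp only [seg, s1, s2, s3, heq]
    have q1 : (2 * j + 1) % 2 = 1 := by omega
    have q2 : (2 * j + 2) % 2 = 0 := by omega
    simp only [q1, q2, decide_true, zero_ne_one, decide_false]
    have hV := V.z (sp (2 * j + 1)) _ (Z_blk k (sp (2 * j + 2)))
    simpa using hV
  obtain ⟨c, hc⟩ : ∃ c, sp (2 * c + 1) = false := by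
    cases h0 : sp 1 with
    | false => exact ⟨0, h0⟩
    | true => exact ⟨1, by rw [halt 0]; simp [h0]⟩
  have hval : ∀ i, sp (2 * (c + i) + 1) = decide (i % 2 = 1) := by
    intro i
    induction i with
    | zero => simpa using hc
    | succ i ih =>
      rw [show c + (i + 1) = c + i + 1 by ring, halt, ih]
      rcases Nat.mod_two_eq_zero_or_one i with h | h
      · have : (i + 1) % 2 = 1 := by omega
        simp [h, this]
      · have : (i + 1) % 2 = 0 := by omega
        simp [h, this]
  refine ⟨a + c * (2 * m), fun i => ?_⟩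
  rw [hm2]
  constructor
  · refine ⟨sp (2 * (c + i)), ?_⟩
    rw [← hsp]
    congr 1
    ring
  · have := hblk (c + i)
    rw [hval] at this
    rw [← this]
    congr 1
    ring

theorem hier_all {y : ℕ → A} (hy : ∀ a n, ¬ V (seg y a n)) (k : ℕ) : Hier y k := by
  induction k with
  | zero => exact hier_zero hy
  | succ k ih => exact hier_succ hy ih

theorem blk_mid (k : ℕ) (d : Bool) (h : 2 ^ k - 1 < (blk k d).length) :
    (blk k d)[2 ^ k - 1] = if k = 0 then leaf d else node d := by
  cases k with
  | zero => simp [blk]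
  | succ k =>
    have h1 := blk_length k false
    have h2 : 2 ^ (k + 1) - 1 = (blk k false).length := by omega
    simp only [blk, h2]
    simp

theorem no_period {y : ℕ → A} (hy : ∀ a n, ¬ V (seg y a n)) {q : ℕ} (hq : 0 < q)
    (hper : ∀ n, y (n + q) = y n) : False := by
  have hper2 : ∀ n, y (n + 2 * q) = y n := by
    intro n
    rw [two_mul, ← add_assoc, hper, hper]
  obtain ⟨k, m, hm, hk⟩ := Nat.exists_eq_two_pow_mul_odd (n := q) (by omega)
  obtain ⟨a, ha⟩ := hier_all hy k
  have key : ∀ i, y (a + i * 2 ^ (k + 1) + 2 ^ k) =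
      if k = 0 then leaf (decide (i % 2 = 1)) else node (decide (i % 2 = 1)) := by
    intro i
    have h1 := (ha i).2
    have h2 : 2 ^ k - 1 < (seg y (a + i * 2 ^ (k + 1) + 1) (2 ^ (k + 1) - 1)).length := by
      rw [seg_length, pow_succ]
      have := Nat.one_le_two_pow (n := k)
      omega
    have h3 := seg_getElem y _ _ _ h2
    have h4 : a + i * 2 ^ (k + 1) + 1 + (2 ^ k - 1) = a + i * 2 ^ (k + 1) + 2 ^ k := by
      have := Nat.one_le_two_pow (n := k)
      omega
    rw [h4] at h3
    rw [← h3]
    have h5 : 2 ^ k - 1 < (blk k (decide (i % 2 = 1))).length := by rw [← h1]; exact h2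
    rw [← blk_mid k _ h5]
    simp only [h1]
  have h0 := key 0
  have h1 := key m
  have h2 : a + m * 2 ^ (k + 1) + 2 ^ k = (a + 0 * 2 ^ (k + 1) + 2 ^ k) + 2 * q := by
    rw [hk, pow_succ]; ring
  rw [h2, hper2, h0] at h1
  have hm1 : m % 2 = 1 := Nat.odd_iff.1 hm
  by_cases hk0 : k = 0
  · simp [hk0, hm1] at h1
  · simp [hk0, hm1] at h1

/-- The periodic sequence of a nonempty word. -/
def per (u : List A) (hu : u ≠ []) (n : ℕ) : A :=
  u[n % u.length]'(Nat.mod_lt _ (List.length_pos_iff.2 hu))

theorem per_add (u : List A) (hu : u ≠ []) (n : ℕ) : per u hu (n + u.length) = per u hu n := by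
  unfold per
  simp

theorem per_add_mul (u : List A) (hu : u ≠ []) (n m : ℕ) :
    per u hu (n + m * u.length) = per u hu n := by
  unfold per
  simp

theorem seg_congr {y y' : ℕ → A} (n : ℕ) : ∀ a b, (∀ i < n, y (a + i) = y' (b + i)) →
    seg y a n = seg y' b n := by
  induction n with
  | zero => intro a b _; rfl
  | succ n ih =>
    intro a b h
    simp only [seg]
    rw [ih (a + 1) (b + 1) (fun i hi => by
      have := h (i + 1) (by omega)
      rw [show a + 1 + i = a + (i + 1) by ring, show b + 1 + i = b + (i + 1) by ring]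
      exact this)]
    have := h 0 (by omega)
    simp only [add_zero] at this
    rw [this]

theorem seg_per (u : List A) (hu : u ≠ []) : seg (per u hu) 0 u.length = u := by
  apply List.ext_getElem (by simp)
  intro i h1 h2
  rw [seg_getElem]
  unfold per
  simp only [zero_add]
  congr 1
  exact Nat.mod_eq_of_lt h2

theorem seg_per_pow (u : List A) (hu : u ≠ []) (m : ℕ) :
    seg (per u hu) 0 (m * u.length) = (List.replicate m u).flatten := by
  induction m with
  | zero => simp [seg]
  | succ m ih =>
    rw [show (m + 1) * u.length = m * u.length + u.length by ring, seg_add, ih,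
      List.replicate_succ', List.flatten_append]
    congr 1
    simp only [List.flatten_cons, List.flatten_nil, List.append_nil]
    conv_rhs => rw [← seg_per u hu]
    apply seg_congr
    intro i _
    rw [zero_add, zero_add, add_comm, per_add_mul]

theorem pow_bad (u : List A) (hu : u ≠ []) : ∃ m, Bad (List.replicate m u).flatten := by
  by_contra hcon
  push Not at hcon
  have hpos : 0 < u.length := List.length_pos_iff.2 hu
  refine no_period (y := per u hu) ?_ hpos (per_add u hu)
  intro a n hV
  apply hcon (a + n)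
  refine ⟨_, hV, ?_⟩
  rw [← seg_per_pow u hu]
  apply seg_infix
  · omega
  · rw [zero_add]
    exact Nat.le_mul_of_pos_right _ hpos

end Pool.Agent.H605R3.PS
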