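import Pool.Agent.H605R3.PS.Per
import Pool.Agent.H605R3.PS.Good
import Pool.Agent.H605R3.PS.Gram

set_option autoImplicit false

namespace Pool.Agent.H605R3.PS

open A

/-- The Rees quotient: nonempty words without violation, and a zero. -/
def Q : Type := Option {w : List A // w ≠ [] ∧ ¬ Bad w}

/-- The zero. -/
def zq : Q := (none : Option {w : List A // w ≠ [] ∧ ¬ Bad w})

open Classical in
/-- The class of a word. -/
noncomputable def mk (w : List A) : Q := if h : w ≠ [] ∧ ¬ Bad w then some ⟨w, h⟩ else none

theorem mk_of {w : List A} (h : w ≠ [] ∧ ¬ Bad w) : mk w = some ⟨w, h⟩ := dif_pos h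

theorem mk_bad {w : List A} (h : Bad w) : mk w = zq := dif_neg (fun h' => h'.2 h)

theorem mk_nil : mk [] = zq := dif_neg (fun h' => h'.1 rfl)

/-- The multiplication. -/
noncomputable def mulQ : Q → Q → Q
  | some u, some v => mk (u.1 ++ v.1)
  | none, _ => none
  | some _, none => none

noncomputable instance : Mul Q := ⟨mulQ⟩

theorem zq_mul (x : Q) : zq * x = zq := by
  show mulQ none x = none
  cases x <;> rfl

theorem mul_zq (x : Q) : x * zq = zq := by
  show mulQ x none = none
  cases x <;> rfl

theorem mk_mul {u v : List A} (hu : u ≠ []) (hv : v ≠ []) : mk u * mk v = mk (u ++ v) := by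
  by_cases h1 : Bad u
  · rw [mk_bad h1, zq_mul, mk_bad (h1.mono (List.prefix_append u v).isInfix)]
  · by_cases h2 : Bad v
    · rw [mk_bad h2, mul_zq, mk_bad (h2.mono (List.suffix_append u v).isInfix)]
    · rw [mk_of ⟨hu, h1⟩, mk_of ⟨hv, h2⟩]
      rfl

theorem exists_mk (x : Q) : ∃ u : List A, u ≠ [] ∧ x = mk u := by
  cases x with
  | none =>
    refine ⟨[leaf false, leaf false], by simp, ?_⟩
    rw [mk_bad ⟨_, V.ll false false, List.infix_rfl⟩]
    rfl
  | some u => exact ⟨u.1, u.2.1, (mk_of u.2).symm⟩

noncomputable instance : Semigroup Q where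
  mul_assoc := by
    intro x y z
    obtain ⟨u, hu, rfl⟩ := exists_mk x
    obtain ⟨v, hv, rfl⟩ := exists_mk y
    obtain ⟨w, hw, rfl⟩ := exists_mk z
    rw [mk_mul hu hv, mk_mul hv hw, mk_mul (by simp [hu]) hw, mk_mul hu (by simp [hv]),
      List.append_assoc]

theorem mk_eq_iff {u v : List A} (hu : u ≠ []) (hv : v ≠ []) :
    mk u = mk v ↔ u = v ∨ (Bad u ∧ Bad v) := by
  by_cases h1 : Bad u
  · by_cases h2 : Bad v
    · rw [mk_bad h1, mk_bad h2]
      exact ⟨fun _ => Or.inr ⟨h1, h2⟩, fun _ => rfl⟩
    · rw [mk_bad h1, mk_of ⟨hv, h2⟩]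
      constructor
      · intro h; cases h
      · rintro (rfl | ⟨-, h⟩)
        · exact absurd h1 h2
        · exact absurd h h2
  · by_cases h2 : Bad v
    · rw [mk_bad h2, mk_of ⟨hu, h1⟩]
      constructor
      · intro h; cases h
      · rintro (rfl | ⟨h, -⟩)
        · exact absurd h2 h1
        · exact absurd h h1
    · rw [mk_of ⟨hu, h1⟩, mk_of ⟨hv, h2⟩]
      constructor
      · intro h
        left
        have := Option.some.inj h
        exact congrArg Subtype.val this
      · rintro (rfl | ⟨h, -⟩)
        · rfl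
        · exact absurd h h1

/-- The generators. -/
noncomputable def gen (a : A) : Q := mk [a]

theorem prod_eq (u : List A) (hu : u ≠ []) :
    (u.map (fun a => ((gen a : Q) : WithOne Q))).prod = ((mk u : Q) : WithOne Q) := by
  induction u with
  | nil => exact absurd rfl hu
  | cons a u ih =>
    rcases eq_or_ne u [] with rfl | hu'
    · simp [gen]
    · rw [List.map_cons, List.prod_cons, ih hu', ← WithOne.coe_mul, gen,
        mk_mul (by simp) hu']
      rfl

theorem infinite_Q : Infinite Q := by
  refine Infinite.of_injective (fun k : ℕ => mk (blk k false)) ?_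
  intro k l h
  have hk : blk k false ≠ [] := by
    intro h0
    have := blk_length k false
    rw [h0] at this
    simp only [List.length_nil, zero_add] at this
    have h1 : 2 ^ 1 ≤ 2 ^ (k + 1) := Nat.pow_le_pow_right (by norm_num) (by omega)
    omega
  have hl : blk l false ≠ [] := by
    intro h0
    have := blk_length l false
    rw [h0] at this
    simp only [List.length_nil, zero_add] at this
    have h1 : 2 ^ 1 ≤ 2 ^ (l + 1) := Nat.pow_le_pow_right (by norm_num) (by omega)
    omega
  rcases (mk_eq_iff hk hl).1 h with h' | ⟨h', -⟩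
  · exact blk_injective h'
  · exact absurd h' (blk_good k)

theorem closure_gen : Subsemigroup.closure (Set.range gen) = ⊤ := by
  rw [eq_top_iff]
  intro x _
  obtain ⟨u, hu, rfl⟩ := exists_mk x
  induction u with
  | nil => exact absurd rfl hu
  | cons a u ih =>
    rcases eq_or_ne u [] with rfl | hu'
    · exact Subsemigroup.subset_closure ⟨a, rfl⟩
    · have h1 := mul_mem (Subsemigroup.subset_closure (s := Set.range gen) ⟨a, rfl⟩)
        (ih hu' trivial)
      rw [gen, mk_mul (by simp) hu'] at h1
      exact h1

theorem flat_ne {u : List A} (hu : u ≠ []) {m : ℕ} (hm : 1 ≤ m) :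
    (List.replicate m u).flatten ≠ [] := by
  obtain ⟨k, rfl⟩ := Nat.exists_eq_add_of_le hm
  rw [add_comm, List.replicate_succ, List.flatten_cons]
  simp [hu]

theorem finite_closure (x : Q) : (Subsemigroup.closure ({x} : Set Q) : Set Q).Finite := by
  obtain ⟨u, hu, rfl⟩ := exists_mk x
  obtain ⟨M, hM⟩ := pow_bad u hu
  let T : Set Q := insert zq ((fun m : ℕ => mk (List.replicate m u).flatten) '' Set.Icc 1 M)
  have hT : T.Finite := ((Set.finite_Icc 1 M).image _).insert _
  have hbig : ∀ m, M ≤ m → mk (List.replicate m u).flatten = zq := by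
    intro m hm
    obtain ⟨k, rfl⟩ := Nat.exists_eq_add_of_le hm
    apply mk_bad
    apply hM.mono
    rw [List.replicate_add, List.flatten_append]
    exact (List.prefix_append _ _).isInfix
  refine hT.subset ?_
  let H : Subsemigroup Q :=
    { carrier := T
      mul_mem' := by
        rintro a b (rfl | ⟨m, hm, rfl⟩) hb
        · rw [zq_mul]; exact Or.inl rfl
        · rcases hb with rfl | ⟨n, hn, rfl⟩
          · rw [mul_zq]; exact Or.inl rfl
          · simp only
            rw [mk_mul (flat_ne hu hm.1) (flat_ne hu hn.1), ← List.flatten_append,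
              ← List.replicate_add]
            rcases le_or_gt M (m + n) with h | h
            · rw [hbig _ h]; exact Or.inl rfl
            · exact Or.inr ⟨m + n, ⟨by have := hm.1; omega, by omega⟩, rfl⟩ }
  have : Subsemigroup.closure ({mk u} : Set Q) ≤ H := by
    rw [Subsemigroup.closure_le]
    rintro _ rfl
    show mk u ∈ T
    have hM1 : 1 ≤ M := by
      rcases Nat.eq_zero_or_pos M with h | h
      · exfalso
        rw [h] at hM
        exact hM.ne_nil (by simp)
      · exact h
    refine Or.inr ⟨1, ⟨le_rfl, hM1⟩, ?_⟩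
    simp
  exact this

theorem main :
    ∃ (S : Type) (_ : Semigroup S) (α : Type) (_ : Fintype α) (f : α → S),
      Infinite S ∧
      (∀ x : S, (Subsemigroup.closure ({x} : Set S) : Set S).Finite) ∧
      Subsemigroup.closure (Set.range f) = ⊤ ∧
      Language.IsContextFree
        ({w : List (Option α) | ∃ u v : List α, u ≠ [] ∧ v ≠ [] ∧
            (u.map (fun a => ((f a : S) : WithOne S))).prod =
              (v.map (fun a => ((f a : S) : WithOne S))).prod ∧
            w = u.map some ++ [none] ++ v.reverse.map some} : Language (Option α)) := by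
  refine ⟨Q, inferInstance, A, inferInstance, gen, infinite_Q, finite_closure, closure_gen, ?_⟩
  have e : ({w : List (Option A) | ∃ u v : List A, u ≠ [] ∧ v ≠ [] ∧
      (u.map (fun a => ((gen a : Q) : WithOne Q))).prod =
        (v.map (fun a => ((gen a : Q) : WithOne Q))).prod ∧
      w = u.map some ++ [none] ++ v.reverse.map some} : Set (List (Option A))) = WP := by
    ext w
    constructor
    · rintro ⟨u, v, hu, hv, h, rfl⟩
      rw [prod_eq u hu, prod_eq v hv, WithOne.coe_inj] at h
      exact ⟨u, v, hu, hv, (mk_eq_iff hu hv).1 h, rfl⟩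
    · rintro ⟨u, v, hu, hv, h, rfl⟩
      refine ⟨u, v, hu, hv, ?_, rfl⟩
      rw [prod_eq u hu, prod_eq v hv, WithOne.coe_inj]
      exact (mk_eq_iff hu hv).2 h
  have h := cf_WP
  rw [← e] at h
  exact h

end Pool.Agent.H605R3.PS
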