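import Mathlib

set_option autoImplicit false

namespace Pool.Agent.H605R3.PS

/-- The four letters: leaves and nodes, each with a direction. -/
inductive A : Type
  | leaf (d : Bool)
  | node (d : Bool)
  deriving DecidableEq, Fintype

open A

/-- Apparent blocks with a given direction of the root. -/
inductive N : Bool → List A → Prop
  | leaf (d : Bool) : N d [leaf d]
  | node (d : Bool) (u v : List A) : N false u → N true v → N d (u ++ node d :: v)

/-- Apparent symmetric neighbourhoods of a separator. -/
inductive Z : List A → Prop
  | base (e : Bool) : Z [leaf true, node e, leaf false]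
  | step (u z v : List A) : N false u → Z z → N true v →
      Z (u ++ node true :: (z ++ node false :: v))

/-- The violations. -/
inductive V : List A → Prop
  | ll (a b : Bool) : V [leaf a, leaf b]
  | nn (a b : Bool) : V [node a, node b]
  | lnl (a b : Bool) : V [leaf a, node b, leaf a]
  | z (a : Bool) (z : List A) : Z z → V (node a :: (z ++ [node a]))

/-- Words containing a violation. -/
def Bad (w : List A) : Prop := ∃ v, V v ∧ v <:+: w

theorem V.ne_nil {v : List A} (h : V v) : v ≠ [] := by
  cases h <;> simp

theorem V.two_le {v : List A} (h : V v) : 2 ≤ v.length := by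
  cases h <;> simp

theorem Bad.ne_nil {w : List A} (h : Bad w) : w ≠ [] := by
  obtain ⟨v, hv, hw⟩ := h
  rintro rfl
  exact hv.ne_nil (List.infix_nil.1 hw)

theorem Bad.mono {w w' : List A} (h : Bad w) (hw : w <:+: w') : Bad w' := by
  obtain ⟨v, hv, h'⟩ := h
  exact ⟨v, hv, h'.trans hw⟩

theorem not_bad_singleton (a : A) : ¬ Bad [a] := by
  rintro ⟨v, hv, h⟩
  have h1 := h.length_le
  have h2 := hv.two_le
  simp at h1
  omega

/-- The complete blocks. -/
def blk : ℕ → Bool → List A
  | 0, d => [leaf d]
  | k + 1, d => blk k false ++ node d :: blk k true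

theorem blk_length (k : ℕ) : ∀ d, (blk k d).length + 1 = 2 ^ (k + 1) := by
  induction k with
  | zero => intro d; simp [blk]
  | succ k ih =>
    intro d
    have h1 := ih false
    have h2 := ih true
    simp only [blk, List.length_append, List.length_cons]
    rw [pow_succ]
    omega

theorem N_blk (k : ℕ) : ∀ d, N d (blk k d) := by
  induction k with
  | zero => intro d; exact N.leaf d
  | succ k ih => intro d; exact N.node d _ _ (ih false) (ih true)

theorem Z_blk (k : ℕ) (e : Bool) : Z (blk k true ++ node e :: blk k false) := by
  induction k with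
  | zero => exact Z.base e
  | succ k ih =>
    have := Z.step _ _ _ (N_blk k false) ih (N_blk k true)
    simpa [blk] using this

/-- Factors of a sequence. -/
def seg (y : ℕ → A) (a : ℕ) : ℕ → List A
  | 0 => []
  | n + 1 => y a :: seg y (a + 1) n

@[simp] theorem seg_length (y : ℕ → A) (n : ℕ) : ∀ a, (seg y a n).length = n := by
  induction n with
  | zero => intro a; rfl
  | succ n ih => intro a; simp [seg, ih]

theorem seg_add (y : ℕ → A) (m : ℕ) : ∀ a n, seg y a (m + n) = seg y a m ++ seg y (a + m) n := by
  induction m with
  | zero => intro a n; simp [seg]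
  | succ m ih =>
    intro a n
    rw [show m + 1 + n = (m + n) + 1 by ring, seg, seg, ih, List.cons_append,
      show a + 1 + m = a + (m + 1) by ring]

theorem seg_append {y : ℕ → A} {a n : ℕ} {u v : List A} (h : seg y a n = u ++ v) :
    u = seg y a u.length ∧ v = seg y (a + u.length) v.length ∧ n = u.length + v.length := by
  have hn : n = u.length + v.length := by
    have := congrArg List.length h
    simpa using this
  rw [hn, seg_add] at h
  have := List.append_inj h (by simp)
  exact ⟨this.1.symm, this.2.symm, hn⟩

theorem seg_cons {y : ℕ → A} {a n : ℕ} {x : A} {v : List A} (h : seg y a n = x :: v) :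
    y a = x ∧ v = seg y (a + 1) v.length ∧ n = v.length + 1 := by
  cases n with
  | zero => simp [seg] at h
  | succ n =>
    simp only [seg, List.cons.injEq] at h
    have hl : v.length = n := by
      rw [← h.2]; simp
    refine ⟨h.1, ?_, by omega⟩
    rw [hl]
    exact h.2.symm

theorem seg_getElem (y : ℕ → A) (n : ℕ) : ∀ a i (h : i < (seg y a n).length),
    (seg y a n)[i] = y (a + i) := by
  induction n with
  | zero => intro a i h; simp [seg] at h
  | succ n ih =>
    intro a i h
    cases i with
    | zero => simp [seg]
    | succ i =>
      simp only [seg, List.getElem_cons_succ]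
      rw [ih]
      congr 1
      ring

theorem infix_seg {y : ℕ → A} {a n : ℕ} {v : List A} (h : v <:+: seg y a n) :
    ∃ b, v = seg y (a + b) v.length := by
  obtain ⟨p, q, hpq⟩ := h
  have h1 := seg_append hpq.symm
  have h2 := seg_append h1.1.symm
  exact ⟨p.length, h2.2.1⟩

theorem seg_infix (y : ℕ → A) {a n b m : ℕ} (h1 : b ≤ a) (h2 : a + n ≤ b + m) :
    seg y a n <:+: seg y b m := by
  obtain ⟨c, rfl⟩ := Nat.exists_eq_add_of_le h1
  obtain ⟨d, hd⟩ := Nat.exists_eq_add_of_le h2
  have : m = c + (n + d) := by omega
  rw [this, seg_add, seg_add]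
  exact ⟨seg y b c, seg y (b + c + n) d, by simp⟩

end Pool.Agent.H605R3.PS
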